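import Mathlib

/-!
# Projects CJ, CF (helper7), job D4H: the abstract part

`B` a Dedekind domain whose units are constants, with two evaluations `e1`, `e2` (at two points fixed by the automorphism `σ`).
-/

set_option autoImplicit false
set_option linter.unusedSectionVars false
set_option linter.overlappingInstances false

namespace Pool.Agent.Q68.CJ

open Ideal

section sim

variable {B : Type} [CommRing B] [IsDomain B] [IsDedekindDomain B]

/-- similar ideals -/
def Sm (I J : Ideal B) : Prop := ∃ a b : B, a ≠ 0 ∧ b ≠ 0 ∧ span {a} * I = span {b} * J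

theorem Sm.refl (I : Ideal B) : Sm I I := ⟨1, 1, one_ne_zero, one_ne_zero, rfl⟩

theorem Sm.symm {I J : Ideal B} (h : Sm I J) : Sm J I := by
  obtain ⟨a, b, ha, hb, h⟩ := h
  exact ⟨b, a, hb, ha, h.symm⟩

theorem Sm.trans {I J K : Ideal B} (h1 : Sm I J) (h2 : Sm J K) : Sm I K := by
  obtain ⟨a, b, ha, hb, h1⟩ := h1
  obtain ⟨c, d, hc, hd, h2⟩ := h2
  refine ⟨c * a, b * d, mul_ne_zero hc ha, mul_ne_zero hb hd, ?_⟩
  rw [← Ideal.span_singleton_mul_span_singleton, ← Ideal.span_singleton_mul_span_singleton, mul_assoc, h1,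
    mul_left_comm, h2, mul_assoc]

theorem Sm.mul {I J I' J' : Ideal B} (h : Sm I J) (h' : Sm I' J') : Sm (I * I') (J * J') := by
  obtain ⟨a, b, ha, hb, h⟩ := h
  obtain ⟨c, d, hc, hd, h'⟩ := h'
  refine ⟨a * c, b * d, mul_ne_zero ha hc, mul_ne_zero hb hd, ?_⟩
  rw [← Ideal.span_singleton_mul_span_singleton, ← Ideal.span_singleton_mul_span_singleton,
    mul_mul_mul_comm, h, h', mul_mul_mul_comm]

theorem Sm.map {I J : Ideal B} (h : Sm I J) (f : B →+* B) (hf : Function.Injective f) :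
    Sm (I.map f) (J.map f) := by
  obtain ⟨a, b, ha, hb, h⟩ := h
  refine ⟨f a, f b, (map_ne_zero_iff f hf).2 ha, (map_ne_zero_iff f hf).2 hb, ?_⟩
  have h1 := congrArg (Ideal.map f) h
  rw [Ideal.map_mul, Ideal.map_mul, Ideal.map_span, Ideal.map_span, Set.image_singleton,
    Set.image_singleton] at h1
  exact h1

theorem Sm.cancel {I J K : Ideal B} (hK : K ≠ ⊥) (h : Sm (K * I) (K * J)) : Sm I J := by
  obtain ⟨a, b, ha, hb, h⟩ := h
  refine ⟨a, b, ha, hb, ?_⟩
  rw [mul_left_comm, mul_left_comm (span {b})] at h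
  exact mul_left_cancel₀ hK h

theorem avoid {P Q A : Ideal B} (hP : ¬ A ≤ P) (hQ : ¬ A ≤ Q) : ∃ x ∈ A, x ∉ P ∧ x ∉ Q := by
  obtain ⟨x1, h1, h1'⟩ := SetLike.not_le_iff_exists.1 hP
  obtain ⟨x2, h2, h2'⟩ := SetLike.not_le_iff_exists.1 hQ
  by_cases a1 : x1 ∈ Q
  · by_cases a2 : x2 ∈ P
    · refine ⟨x1 + x2, A.add_mem h1 h2, fun h => h1' ?_, fun h => h2' ?_⟩
      · have := P.sub_mem h a2
        rwa [add_sub_cancel_right] at this
      · have := Q.sub_mem h a1
        rwa [add_sub_cancel_left] at this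
    · exact ⟨x2, h2, a2, h2'⟩
  · exact ⟨x1, h1, h1', a1⟩

theorem span_ne {b : B} (hb : b ≠ 0) : span {b} ≠ (⊥ : Ideal B) := by
  rw [Ne, Ideal.span_singleton_eq_bot]
  exact hb

/-- a quotient of elements is a unit at the primes `P` and `Q` -/
theorem unit_at {P Q A A' : Ideal B} [hPp : P.IsPrime] [hQp : Q.IsPrime] {a b : B} (hb : b ≠ 0)
    (h : span {a} * A = span {b} * A') (hAP : ¬ A ≤ P) (hAQ : ¬ A ≤ Q) (hP : ¬ A' ≤ P)
    (hQ : ¬ A' ≤ Q) : ∃ e f : B, e ∉ P ∧ e ∉ Q ∧ f ∉ P ∧ f ∉ Q ∧ a * f = b * e ∧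
      span {e} * A = span {f} * A' := by
  obtain ⟨f, hf, hfP, hfQ⟩ := avoid hAP hAQ
  have h1 : a * f ∈ span {b} * A' := by
    rw [← h]
    exact Ideal.mul_mem_mul (Ideal.mem_span_singleton_self a) hf
  obtain ⟨e, he, hae⟩ := Ideal.mem_span_singleton_mul.1 h1
  have h2 : span {e} * A = span {f} * A' := by
    refine mul_left_cancel₀ (span_ne hb) ?_
    rw [← mul_assoc, Ideal.span_singleton_mul_span_singleton, hae, ← Ideal.span_singleton_mul_span_singleton,
      mul_comm (span {a}), mul_assoc, h, mul_left_comm]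
  have key : ∀ R : Ideal B, R.IsPrime → f ∉ R → ¬ A' ≤ R → e ∉ R := by
    intro R hR hfR hAR heR
    have h3 : span {f} * A' ≤ R := by
      rw [← h2]
      refine Ideal.mul_le_left.trans ?_
      rw [Ideal.span_singleton_le_iff_mem]
      exact heR
    rcases hR.mul_le.1 h3 with h4 | h4
    · rw [Ideal.span_singleton_le_iff_mem] at h4
      exact hfR h4
    · exact hAR h4
  exact ⟨e, f, key P hPp hfP hP, key Q hQp hfQ hQ, hfP, hfQ, hae.symm, h2⟩

/-- the ideal `K` with `J K ∼ θ J` -/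
theorem exK {σ θ : B →+* B} (hσ : Function.Injective σ) (hθ : Function.Injective θ)
    (hθσ : ∀ b, θ (σ b) = σ (θ b)) {I J : Ideal B} (hI0 : I ≠ ⊥) (hJ0 : J ≠ ⊥) (hI : I.map θ = I)
    (h : Sm (I * J.map σ) J) :
    ∃ K : Ideal B, K ≠ ⊥ ∧ Sm (J * K) (J.map θ) ∧ Sm (K.map σ) K := by
  obtain ⟨c0, hc0, hc⟩ := Submodule.exists_mem_ne_zero_of_ne_bot hJ0
  obtain ⟨J', hJ'⟩ := Ideal.dvd_iff_le.2 ((Ideal.span_singleton_le_iff_mem J).2 hc0)
  have hJθ : J.map θ ≠ ⊥ := by
    rw [Ne, Ideal.map_eq_bot_iff_of_injective hθ]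
    exact hJ0
  have hJσ : J.map σ ≠ ⊥ := by
    rw [Ne, Ideal.map_eq_bot_iff_of_injective hσ]
    exact hJ0
  have hJ'0 : J' ≠ ⊥ := by
    intro e
    rw [e, Ideal.mul_bot] at hJ'
    exact span_ne hc hJ'
  have hcomm : ∀ A : Ideal B, (A.map θ).map σ = (A.map σ).map θ := by
    intro A
    rw [Ideal.map_map, Ideal.map_map]
    congr 1
    exact RingHom.ext fun b => (hθσ b).symm
  have hS : Sm (J * (J' * J.map θ)) (J.map θ) := by
    refine ⟨1, c0, one_ne_zero, hc, ?_⟩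
    rw [hJ', Ideal.span_singleton_one, Ideal.top_mul, mul_assoc]
  refine ⟨J' * J.map θ, mul_ne_zero hJ'0 hJθ, hS, ?_⟩
  refine Sm.cancel (K := I * J.map σ) (mul_ne_zero hI0 hJσ) ?_
  have h1 : Sm (I * J.map σ * (J' * J.map θ).map σ) (I * (J.map θ).map σ) := by
    have h2 := (Sm.refl I).mul (hS.map σ hσ)
    rw [Ideal.map_mul, ← mul_assoc] at h2
    exact h2
  have h2 : I * (J.map θ).map σ = (I * J.map σ).map θ := by
    rw [Ideal.map_mul, hI, hcomm]
  rw [h2] at h1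
  exact h1.trans ((h.map θ hθ).trans (hS.symm.trans (h.symm.mul (Sm.refl _))))

end sim

section ev

variable {B : Type} [CommRing B] [IsDomain B] [IsDedekindDomain B] {M : Type} [Field M] {c : M →+* B}
  {e1 e2 : B →+* M}

theorem assoc_const (hu : ∀ u : B, IsUnit u → ∃ m : M, m ≠ 0 ∧ u = c m) {a b : B}
    (h : span {a} = span {b}) : ∃ m : M, m ≠ 0 ∧ a = c m * b := by
  rw [Ideal.span_singleton_eq_span_singleton] at h
  obtain ⟨u, hu'⟩ := h.symm
  obtain ⟨m, hm, hm'⟩ := hu u u.isUnit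
  exact ⟨m, hm, by rw [← hm', mul_comm]; exact hu'.symm⟩

theorem prod_shift {p : ℕ} {s : ℕ → B →+* B} {σ : B →+* B} (h0 : ∀ b, s 0 b = b)
    (hs : ∀ j b, s (j + 1) b = s j (σ b)) (hp : ∀ b, s p b = b) {J : Ideal B} (hJ : J ≠ ⊥) :
    ∏ j ∈ Finset.range p, (J.map σ).map (s j) = ∏ j ∈ Finset.range p, J.map (s j) := by
  have e0 : J.map (s 0) = J := by
    have : s 0 = RingHom.id B := RingHom.ext h0
    rw [this, Ideal.map_id]
  have ep : J.map (s p) = J := by
    have : s p = RingHom.id B := RingHom.ext hp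
    rw [this, Ideal.map_id]
  have e1 : ∀ j, (J.map σ).map (s j) = J.map (s (j + 1)) := by
    intro j
    rw [Ideal.map_map]
    congr 1
    exact RingHom.ext fun b => (hs j b).symm
  have h1 := Finset.prod_range_succ (fun j => J.map (s j)) p
  rw [Finset.prod_range_succ' (fun j => J.map (s j)) p, e0, ep] at h1
  rw [Finset.prod_congr rfl fun j _ => e1 j]
  exact mul_right_cancel₀ hJ h1

/-- the norm -/
theorem norm_eq (hu : ∀ u : B, IsUnit u → ∃ m : M, m ≠ 0 ∧ u = c m) (hc1 : ∀ m, e1 (c m) = m)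
    (hc2 : ∀ m, e2 (c m) = m) {p : ℕ} {s : ℕ → B →+* B} {σ : B →+* B} (h0 : ∀ b, s 0 b = b)
    (hs : ∀ j b, s (j + 1) b = s j (σ b)) (hp : ∀ b, s p b = b) (hinj : ∀ j, Function.Injective (s j))
    (hs1 : ∀ j b, e1 (s j b) = e1 b) (hs2 : ∀ j b, e2 (s j b) = e2 b) {I J : Ideal B} (hJ : J ≠ ⊥)
    {α β g : B} (h : span {β} * (I * J.map σ) = span {α} * J)
    (hg : ∏ j ∈ Finset.range p, I.map (s j) = span {g}) :
    ∃ m : M, m ≠ 0 ∧ e1 α ^ p = m * (e1 β ^ p * e1 g) ∧ e2 α ^ p = m * (e2 β ^ p * e2 g) := by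
  have hsp : ∀ (x : B) j, (span {x} : Ideal B).map (s j) = span {s j x} := by
    intro x j
    rw [Ideal.map_span, Set.image_singleton]
  have h1 : ∏ j ∈ Finset.range p, (span {β} * (I * J.map σ)).map (s j) =
      ∏ j ∈ Finset.range p, (span {α} * J).map (s j) := by rw [h]
  have h2 : ∏ j ∈ Finset.range p, (span {β} * (I * J.map σ)).map (s j) =
      span {∏ j ∈ Finset.range p, s j β} * (span {g} * ∏ j ∈ Finset.range p, J.map (s j)) := by
    rw [← Ideal.prod_span_singleton, ← hg, ← prod_shift h0 hs hp hJ, ← Finset.prod_mul_distrib,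
      ← Finset.prod_mul_distrib]
    refine Finset.prod_congr rfl fun j _ => ?_
    rw [Ideal.map_mul, Ideal.map_mul, hsp]
  have h3 : ∏ j ∈ Finset.range p, (span {α} * J).map (s j) =
      span {∏ j ∈ Finset.range p, s j α} * ∏ j ∈ Finset.range p, J.map (s j) := by
    rw [← Ideal.prod_span_singleton, ← Finset.prod_mul_distrib]
    refine Finset.prod_congr rfl fun j _ => ?_
    rw [Ideal.map_mul, hsp]
  rw [h2, h3, ← mul_assoc] at h1
  have h4 : ∏ j ∈ Finset.range p, J.map (s j) ≠ ⊥ := by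
    refine Finset.prod_ne_zero_iff.2 fun j _ => ?_
    intro e
    exact hJ ((Ideal.map_eq_bot_iff_of_injective (hinj j)).1 e)
  have h5 := mul_right_cancel₀ h4 h1
  rw [Ideal.span_singleton_mul_span_singleton] at h5
  obtain ⟨m, hm, hm'⟩ := assoc_const hu h5.symm
  refine ⟨m, hm, ?_, ?_⟩
  · have h6 := congrArg e1 hm'
    rw [map_mul, map_mul, map_prod, map_prod, hc1, Finset.prod_congr rfl fun j _ => hs1 j α,
      Finset.prod_congr rfl fun j _ => hs1 j β, Finset.prod_const, Finset.prod_const,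
      Finset.card_range] at h6
    exact h6
  · have h6 := congrArg e2 hm'
    rw [map_mul, map_mul, map_prod, map_prod, hc2, Finset.prod_congr rfl fun j _ => hs2 j α,
      Finset.prod_congr rfl fun j _ => hs2 j β, Finset.prod_const, Finset.prod_const,
      Finset.card_range] at h6
    exact h6

theorem not_le_ker {A : Ideal B} {e : B →+* M} {θ : B →+* B} {τ : M →+* M}
    (hθ : ∀ b, e (θ b) = τ (e b)) (h : ¬ A ≤ RingHom.ker e) : ¬ A.map θ ≤ RingHom.ker e := by
  obtain ⟨x, hx, hx'⟩ := SetLike.not_le_iff_exists.1 h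
  intro h1
  apply hx'
  have h2 := h1 (Ideal.mem_map_of_mem θ hx)
  rw [RingHom.mem_ker, hθ] at h2
  rw [RingHom.mem_ker]
  exact (map_eq_zero τ).1 h2

/-- **the transformation of `ρ`** -/
theorem rho_eq (hu : ∀ u : B, IsUnit u → ∃ m : M, m ≠ 0 ∧ u = c m) (hc1 : ∀ m, e1 (c m) = m)
    (hc2 : ∀ m, e2 (c m) = m) {σ θ : B →+* B} {τ : M →+* M} (hσ : Function.Injective σ)
    (hθσ : ∀ b, θ (σ b) = σ (θ b)) (hσ1 : ∀ b, e1 (σ b) = e1 b) (hσ2 : ∀ b, e2 (σ b) = e2 b)
    (hθ1 : ∀ b, e1 (θ b) = τ (e1 b)) (hθ2 : ∀ b, e2 (θ b) = τ (e2 b)) {v : B} {z : M} (hv0 : v ≠ 0)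
    (hv : σ v = c z * v) {Q : Ideal B} (hQ : RingHom.ker e1 * Q = span {v}) (hQ1 : ¬ Q ≤ RingHom.ker e1)
    (h12 : ¬ RingHom.ker e1 ≤ RingHom.ker e2) (hP0 : RingHom.ker e1 ≠ ⊥)
    (hσP : (RingHom.ker e1).map σ = RingHom.ker e1) {I J : Ideal B} (hI : I.map θ = I)
    (hJ0 : J ≠ ⊥) (hJ1 : ¬ J ≤ RingHom.ker e1) (hJ2 : ¬ J ≤ RingHom.ker e2)
    {α β : B} (hα1 : e1 α ≠ 0) (hα2 : e2 α ≠ 0) (hβ1 : e1 β ≠ 0) (hβ2 : e2 β ≠ 0)
    (h : span {β} * (I * J.map σ) = span {α} * J) {k : ℕ}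
    (hk : Sm (J.map θ) (J * RingHom.ker e1 ^ k)) :
    e1 α / e1 β * (e2 β / e2 α) = z ^ k * τ (e1 α / e1 β * (e2 β / e2 α)) := by
  obtain ⟨c', d, hc', hd, hW⟩ := hk
  have hP1 : (RingHom.ker e1).IsPrime := RingHom.ker_isPrime e1
  have hP2 : (RingHom.ker e2).IsPrime := RingHom.ker_isPrime e2
  have hsp : ∀ (f : B →+* B) (x : B), (span {x} : Ideal B).map f = span {f x} := by
    intro f x
    rw [Ideal.map_span, Set.image_singleton]
  have hcomm : (J.map σ).map θ = (J.map θ).map σ := by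
    rw [Ideal.map_map, Ideal.map_map]
    congr 1
    exact RingHom.ext hθσ
  have hA' : span {θ β} * (I * (J.map θ).map σ) = span {θ α} * J.map θ := by
    have h1 := congrArg (Ideal.map θ) h
    rw [Ideal.map_mul, Ideal.map_mul, Ideal.map_mul, hI, hcomm, hsp, hsp] at h1
    exact h1
  have hW' : span {σ c'} * (J.map θ).map σ = span {σ d} * (J.map σ * RingHom.ker e1 ^ k) := by
    have h1 := congrArg (Ideal.map σ) hW
    rw [Ideal.map_mul, Ideal.map_mul, Ideal.map_mul, Ideal.map_pow, hσP, hsp, hsp] at h1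
    exact h1
  obtain ⟨P, hPdef⟩ : ∃ P : Ideal B, P = RingHom.ker e1 ^ k := ⟨_, rfl⟩
  rw [← hPdef] at hW hW'
  have hPne : P ≠ ⊥ := by
    rw [hPdef]
    exact pow_ne_zero _ hP0
  have hE : span {θ β * c' * σ d * α} = span {θ α * σ c' * β * d} := by
    have h1 : span {θ β} * span {c'} * span {σ d} * span {α} * (J * P) =
        span {θ α} * span {σ c'} * span {β} * span {d} * (J * P) := by
      calc span {θ β} * span {c'} * span {σ d} * span {α} * (J * P)
          = (span {θ β} * span {c'} * span {σ d} * P) * (span {α} * J) := by ring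
        _ = (span {θ β} * span {c'} * span {σ d} * P) * (span {β} * (I * J.map σ)) := by rw [h]
        _ = (span {θ β} * span {c'} * span {β} * I) * (span {σ d} * (J.map σ * P)) := by ring
        _ = (span {θ β} * span {c'} * span {β} * I) * (span {σ c'} * (J.map θ).map σ) := by rw [hW']
        _ = (span {c'} * span {β} * span {σ c'}) * (span {θ β} * (I * (J.map θ).map σ)) := by ring
        _ = (span {c'} * span {β} * span {σ c'}) * (span {θ α} * J.map θ) := by rw [hA']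
        _ = (span {β} * span {σ c'} * span {θ α}) * (span {c'} * J.map θ) := by ring
        _ = (span {β} * span {σ c'} * span {θ α}) * (span {d} * (J * P)) := by rw [hW]
        _ = span {θ α} * span {σ c'} * span {β} * span {d} * (J * P) := by ring
    have h2 := mul_right_cancel₀ (mul_ne_zero hJ0 hPne) h1
    simp only [Ideal.span_singleton_mul_span_singleton] at h2
    exact h2
  obtain ⟨m, hm, hE⟩ := assoc_const hu hE
  have hθJ1 : ¬ J.map θ ≤ RingHom.ker e1 := not_le_ker hθ1 hJ1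
  have hθJ2 : ¬ J.map θ ≤ RingHom.ker e2 := not_le_ker hθ2 hJ2
  -- at the first point
  have hA1 : span {d * v ^ k} * J = span {c'} * (Q ^ k * J.map θ) := by
    have h1 : span {d * v ^ k} = span {d} * (RingHom.ker e1 * Q) ^ k := by
      rw [hQ, Ideal.span_singleton_pow, Ideal.span_singleton_mul_span_singleton]
    rw [h1, mul_pow, ← hPdef]
    calc span {d} * (P * Q ^ k) * J = (span {d} * (J * P)) * Q ^ k := by ring
      _ = (span {c'} * J.map θ) * Q ^ k := by rw [hW]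
      _ = span {c'} * (Q ^ k * J.map θ) := by ring
  have hQk : ¬ Q ^ k * J.map θ ≤ RingHom.ker e1 := by
    intro h1
    rcases hP1.mul_le.1 h1 with h2 | h2
    · exact hQ1 (hP1.le_of_pow_le h2)
    · exact hθJ1 h2
  obtain ⟨e, f, he, -, hf, -, hF, -⟩ := unit_at (P := RingHom.ker e1) (Q := RingHom.ker e1) hc' hA1
    hJ1 hJ1 hQk hQk
  have hFσ := congrArg σ hF
  rw [map_mul, map_mul, map_mul, map_pow, hv, mul_pow, ← map_pow] at hFσ
  have hσc : σ c' ≠ 0 := (map_ne_zero_iff σ hσ).2 hc'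
  have hvk : v ^ k ≠ 0 := pow_ne_zero _ hv0
  have hE1 : θ β * α * f * σ e = c m * (θ α * β * e * c (z ^ k) * σ f) := by
    refine mul_right_cancel₀ (mul_ne_zero (mul_ne_zero hc' hσc) hvk) ?_
    linear_combination (f * v ^ k * c (z ^ k) * v ^ k * σ f) * hE -
      (θ β * α * f * c' * v ^ k) * hFσ + (c m * θ α * σ c' * β * c (z ^ k) * v ^ k * σ f) * hF
  have hG1 := congrArg e1 hE1
  simp only [map_mul, hθ1, hσ1, hc1] at hG1
  rw [RingHom.mem_ker] at he hf
  have hG1' : τ (e1 β) * e1 α = m * (τ (e1 α) * e1 β * z ^ k) := by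
    refine mul_right_cancel₀ (mul_ne_zero he hf) ?_
    linear_combination hG1
  -- at the second point
  have hA2 : span {d} * (J * P) = span {c'} * J.map θ := hW.symm
  have hJP : ¬ J * P ≤ RingHom.ker e2 := by
    intro h1
    rcases hP2.mul_le.1 h1 with h2 | h2
    · exact hJ2 h2
    · rw [hPdef] at h2
      exact h12 (hP2.le_of_pow_le h2)
  obtain ⟨e', f', he', -, hf', -, hF', -⟩ := unit_at (P := RingHom.ker e2) (Q := RingHom.ker e2) hc' hA2
    hJP hJP hθJ2 hθJ2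
  have hFσ' := congrArg σ hF'
  rw [map_mul, map_mul] at hFσ'
  have hE2 : θ β * α * f' * σ e' = c m * (θ α * β * e' * σ f') := by
    refine mul_right_cancel₀ (mul_ne_zero hc' hσc) ?_
    linear_combination (f' * σ f') * hE - (θ β * α * f' * c') * hFσ' +
      (c m * θ α * σ c' * β * σ f') * hF'
  have hG2 := congrArg e2 hE2
  simp only [map_mul, hθ2, hσ2, hc2] at hG2
  rw [RingHom.mem_ker] at he' hf'
  have hG2' : τ (e2 β) * e2 α = m * (τ (e2 α) * e2 β) := by
    refine mul_right_cancel₀ (mul_ne_zero he' hf') ?_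
    linear_combination hG2
  have t1 : τ (e1 α) ≠ 0 := (_root_.map_ne_zero τ).2 hα1
  have t2 : τ (e2 α) ≠ 0 := (_root_.map_ne_zero τ).2 hα2
  have t3 : τ (e1 β) ≠ 0 := (_root_.map_ne_zero τ).2 hβ1
  have t4 : τ (e2 β) ≠ 0 := (_root_.map_ne_zero τ).2 hβ2
  rw [map_mul, map_div₀, map_div₀]
  have hfin : e1 α * e2 β * (τ (e1 β) * τ (e2 α)) = z ^ k * (τ (e1 α) * τ (e2 β)) * (e1 β * e2 α) := by
    refine mul_left_cancel₀ hm ?_
    linear_combination (m * e2 β * τ (e2 α)) * hG1' - (m * z ^ k * τ (e1 α) * e1 β) * hG2'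
  rw [div_mul_div_comm, div_mul_div_comm, ← mul_div_assoc, div_eq_div_iff (mul_ne_zero hβ1 hα2)
    (mul_ne_zero t3 t2)]
  exact hfin

end ev

end Pool.Agent.Q68.CJ
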